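import Mathlib

open Set Finset
open scoped RealInnerProductSpace

namespace Pool.Agent.Results.MP_c24244_an.Counter

/-- property beta with constant `ρ` -/
def HasBeta (Y : Type) [NormedAddCommGroup Y] [NormedSpace ℝ Y] (ρ : ℝ) : Prop :=
  ∃ (Λ : Type) (y : Λ → Y) (f : Λ → StrongDual ℝ Y), (∀ a, ‖y a‖ = 1) ∧ (∀ a, ‖f a‖ = 1) ∧
    (∀ a, f a (y a) = 1) ∧ (∀ a b, a ≠ b → |f a (y b)| ≤ ρ) ∧ ∀ v, ‖v‖ = ⨆ a, |f a v|

/-- the spherical Bishop-Phelps-Bollobas modulus of the pair `(X, Y)` -/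
noncomputable def PhiS (X Y : Type) [NormedAddCommGroup X] [NormedSpace ℝ X]
    [NormedAddCommGroup Y] [NormedSpace ℝ Y] (ε : ℝ) : ENNReal :=
  ⨆ (x : X) (T : X →L[ℝ] Y) (_ : ‖x‖ = 1 ∧ ‖T‖ = 1 ∧ 1 - ε < ‖T x‖),
    ⨅ (z : X) (F : X →L[ℝ] Y) (_ : ‖z‖ = 1 ∧ ‖F‖ = 1 ∧ ‖F z‖ = 1),
      ENNReal.ofReal (max ‖x - z‖ ‖T - F‖)

abbrev E := EuclideanSpace ℝ (Fin 100)

theorem net : ∃ Λ : Finset E, (∀ a ∈ Λ, ‖a‖ = 1) ∧ (∀ a ∈ Λ, ∀ b ∈ Λ, a ≠ -b) ∧
    (∃ a ∈ Λ, |a 0| = 1) ∧ ∀ w : E, ∃ a ∈ Λ, 199 / 200 * ‖w‖ ≤ |⟪a, w⟫| := by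
  classical
  obtain ⟨N, hN, hf, hc⟩ := (isCompact_sphere (0 : E) 1).finite_cover_balls
    (show (0:ℝ) < 1 / 10 by norm_num)
  let : LinearOrder E := IsWellOrder.linearOrder WellOrderingRel
  set e : E := EuclideanSpace.single 0 1
  have he : ‖e‖ = 1 := by simp [e]
  have hm : ∀ u : E, max u (-u) = u ∨ max u (-u) = -u := fun u => max_choice _ _
  have hn : ∀ u ∈ insert e hf.toFinset, ‖u‖ = 1 := fun u hu => by
    rcases Finset.mem_insert.1 hu with rfl | hu
    · exact he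
    · simpa using hN (hf.mem_toFinset.1 hu)
  have hn' : ∀ u ∈ insert e hf.toFinset, ‖max u (-u)‖ = 1 := fun u hu => by
    rcases hm u with h | h <;> simp [h, hn u hu]
  refine ⟨(insert e hf.toFinset).image fun u => max u (-u), ?_, ?_, ?_, fun w => ?_⟩
  · intro a ha
    obtain ⟨u, hu, rfl⟩ := Finset.mem_image.1 ha
    exact hn' u hu
  · have h1 : ∀ u : E, -max u (-u) ≤ max u (-u) := fun u => by
      rcases hm u with h | h
      · rw [h]; exact (le_max_right _ _).trans h.le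
      · rw [h, neg_neg]; exact (le_max_left _ _).trans h.le
    intro a ha b hb hab
    obtain ⟨u, hu, rfl⟩ := Finset.mem_image.1 ha
    obtain ⟨v, hv, rfl⟩ := Finset.mem_image.1 hb
    have h2 := h1 u
    have h3 := h1 v
    rw [hab, neg_neg] at h2
    have h4 : (2:ℝ) • max v (-v) = 0 := by
      rw [two_smul]; nth_rewrite 1 [le_antisymm h2 h3]; simp
    have := hn' v hv
    rw [(smul_eq_zero.1 h4).resolve_left two_ne_zero] at this
    simp at this
  · refine ⟨_, Finset.mem_image.2 ⟨e, Finset.mem_insert_self _ _, rfl⟩, ?_⟩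
    rcases hm e with h | h <;> simp [h, e]
  · rcases eq_or_ne w 0 with rfl | hw
    · exact ⟨_, Finset.mem_image.2 ⟨e, Finset.mem_insert_self _ _, rfl⟩, by simp⟩
    have hw' := norm_pos_iff.2 hw
    have h1 : ‖w‖⁻¹ • w ∈ Metric.sphere (0 : E) 1 := by simp [norm_smul, hw'.ne']
    obtain ⟨u, hu, h2⟩ := mem_iUnion₂.1 (hc h1)
    have hu' : u ∈ insert e hf.toFinset := Finset.mem_insert_of_mem (hf.mem_toFinset.2 hu)
    refine ⟨_, Finset.mem_image.2 ⟨u, hu', rfl⟩, ?_⟩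
    have h3 := norm_sub_sq_real u (‖w‖⁻¹ • w)
    rw [Metric.mem_ball, dist_comm, dist_eq_norm] at h2
    rw [hn u hu', mem_sphere_zero_iff_norm.1 h1, real_inner_smul_right] at h3
    have h4 : 199 / 200 ≤ ‖w‖⁻¹ * ⟪u, w⟫ := by nlinarith [norm_nonneg (u - ‖w‖⁻¹ • w)]
    rw [le_inv_mul_iff₀ hw', mul_comm] at h4
    rcases hm u with h | h <;> rw [h]
    · exact h4.trans (le_abs_self _)
    · rw [inner_neg_left, abs_neg]; exact h4.trans (le_abs_self _)

theorem coord {u w : E} (j : Fin 100) (hu : ‖u‖ = 1) (h1 : ⟪u, w⟫ = 1) (h2 : 199 / 200 * ‖w‖ ≤ 1)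
    (h3 : 199 / 200 * ‖EuclideanSpace.single j (1:ℝ) - w‖ ≤ 11 / 10) : 1 / 4 ≤ u j := by
  have a1 : 1 ≤ ‖w‖ := by
    have := real_inner_le_norm u w
    rwa [h1, hu, one_mul] at this
  have a2 := norm_sub_sq_real (EuclideanSpace.single j (1:ℝ)) w
  have a3 := norm_sub_sq_real u w
  have a4 : |(u - w) j| ≤ ‖u - w‖ := PiLp.norm_apply_le (u - w) j
  rw [EuclideanSpace.inner_single_left] at a2
  simp only [PiLp.norm_single, norm_one, map_one, one_mul] at a2
  rw [hu, h1] at a3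
  have a5 : ‖u - w‖ ≤ 11 / 100 := by
    by_contra! h
    nlinarith
  have a6 : 3 / 8 ≤ w j := by nlinarith [norm_nonneg (EuclideanSpace.single j (1:ℝ) - w)]
  have := (abs_le.1 (a4.trans a5)).1
  simp only [PiLp.sub_apply] at this
  linarith

abbrev X := PiLp 1 fun _ : Fin 100 => ℝ

theorem result : ∃ (X Y : Type) (_ : NormedAddCommGroup X) (_ : NormedSpace ℝ X)
    (_ : CompleteSpace X) (_ : FiniteDimensional ℝ X) (_ : NormedAddCommGroup Y)
    (_ : NormedSpace ℝ Y) (_ : CompleteSpace Y) (_ : FiniteDimensional ℝ Y) (ρ ε : ℝ),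
    0 ≤ ρ ∧ ρ < 1 ∧ HasBeta Y ρ ∧ 0 < ε ∧ ε < 1 ∧ 11 / 10 ≤ PhiS X Y ε ∧
      ENNReal.ofReal (min (√(2 * ε) * √((1 + ρ) / (1 - ρ))) 1) < PhiS X Y ε := by
  classical
  obtain ⟨Λ, h1, h2, ⟨a0, ha0, h3⟩, h4⟩ := net
  have : Nonempty Λ := ⟨⟨a0, ha0⟩⟩
  set J : E →ₗ[ℝ] (Λ → ℝ) := LinearMap.pi fun a => innerₛₗ ℝ a.1 with hJ
  have hJa : ∀ w (a : Λ), J w a = ⟪a.1, w⟫ := fun _ _ => rfl
  have hJ1 : ∀ w, 199 / 200 * ‖w‖ ≤ ‖J w‖ := fun w => by
    obtain ⟨a, ha, h⟩ := h4 w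
    exact h.trans (norm_le_pi_norm (J w) ⟨a, ha⟩)
  set f : Λ → StrongDual ℝ (LinearMap.range J) := fun a =>
    (ContinuousLinearMap.proj a).comp (LinearMap.range J).subtypeL with hf
  have hf1 : ∀ a v, |f a v| ≤ ‖v‖ := fun a v => norm_le_pi_norm v.1 a
  have hy : ∀ a : Λ, ‖J.rangeRestrict a.1‖ = 1 := fun a => by
    refine le_antisymm ((pi_norm_le_iff_of_nonneg zero_le_one).2 fun b => ?_) ?_
    · exact (abs_real_inner_le_norm b.1 a.1).trans (by rw [h1 _ a.2, h1 _ b.2, one_mul])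
    · refine le_trans ?_ (hf1 a _)
      show 1 ≤ |⟪a.1, a.1⟫|
      rw [real_inner_self_eq_norm_sq, h1 _ a.2]; simp
  have hfy : ∀ a : Λ, f a (J.rangeRestrict a.1) = 1 := fun a => by
    show ⟪a.1, a.1⟫ = 1
    rw [real_inner_self_eq_norm_sq, h1 _ a.2]; simp
  obtain ⟨ρ, hρ0, hρ1, hρ⟩ : ∃ ρ : ℝ, 0 ≤ ρ ∧ ρ < 1 ∧ ∀ a b : Λ, a ≠ b → |⟪a.1, b.1⟫| ≤ ρ := by
    obtain ⟨p, hp⟩ := Finite.exists_max fun p : Λ × Λ => if p.1 = p.2 then 0 else |⟪p.1.1, p.2.1⟫|
    refine ⟨_, ?_, ?_, fun a b hab => le_trans (by simp [hab]) (hp (a, b))⟩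
    · split_ifs <;> positivity
    · split_ifs with h
      · norm_num
      · rw [abs_lt]
        constructor
        · have := (inner_lt_one_iff_real_of_norm_eq_one (h1 _ p.1.2)
            (by rw [norm_neg, h1 _ p.2.2] : ‖-p.2.1‖ = 1)).2 (h2 _ p.1.2 _ p.2.2)
          rw [inner_neg_right] at this
          linarith
        · exact (inner_lt_one_iff_real_of_norm_eq_one (h1 _ p.1.2) (h1 _ p.2.2)).2
            fun e => h (Subtype.ext e)
  set L : X →ₗ[ℝ] E := (WithLp.linearEquiv 2 ℝ (Fin 100 → ℝ)).symm.toLinearMap.comp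
    (WithLp.linearEquiv 1 ℝ (Fin 100 → ℝ)).toLinearMap with hL
  set T : X →L[ℝ] LinearMap.range J := (J.rangeRestrict.comp L).toContinuousLinearMap with hT
  have hTa : ∀ v a, f a (T v) = ∑ j, v j * a.1 j := fun v a => by
    show ⟪a.1, L v⟫ = _
    simp [PiLp.inner_apply, hL]
  have hX : ∀ v : X, ‖v‖ = ∑ j, |v j| := fun v => by simp [PiLp.norm_eq_of_L1]
  have hs : ∀ j, ‖(PiLp.single 1 j 1 : X)‖ = 1 := fun j => by simp
  have hT1 : ‖T‖ = 1 := by
    refine le_antisymm (T.opNorm_le_bound zero_le_one fun v => ?_) ?_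
    · rw [one_mul]
      refine (pi_norm_le_iff_of_nonneg (norm_nonneg _)).2 fun a => ?_
      show |f a (T v)| ≤ _
      rw [hTa, hX]
      refine (abs_sum_le_sum_abs _ _).trans (sum_le_sum fun j _ => ?_)
      rw [abs_mul]
      exact mul_le_of_le_one_right (abs_nonneg _)
        ((PiLp.norm_apply_le a.1 j).trans (h1 _ a.2).le)
    · have := (hf1 ⟨a0, ha0⟩ _).trans (T.le_opNorm (PiLp.single 1 0 1))
      rw [hTa, hs, mul_one, sum_eq_single 0 (fun j _ h => by simp [h]) (by simp)] at this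
      simpa [h3] using this
  set x : X := WithLp.toLp 1 fun _ => 1 / 100 with hx
  have hx1 : ‖x‖ = 1 := by rw [hX]; simp [hx]
  have hTx : 1 - 199 / 200 < ‖T x‖ := by
    have := hJ1 (L x)
    have h5 : |L x 0| ≤ ‖L x‖ := PiLp.norm_apply_le (L x) 0
    have h6 : L x 0 = 1 / 100 := rfl
    rw [h6, abs_of_pos (by norm_num)] at h5
    show _ < ‖J (L x)‖
    linarith
  have main : 11 / 10 ≤ PhiS X (LinearMap.range J) (199 / 200) := by
    refine le_iSup_of_le x (le_iSup_of_le T (le_iSup_of_le ⟨hx1, hT1, hTx⟩ ?_))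
    refine le_iInf fun z => le_iInf fun F => le_iInf fun ⟨hz, hF, hFz⟩ => ?_
    rw [show (11 / 10 : ENNReal) = ENNReal.ofReal (11 / 10) by
      rw [ENNReal.ofReal_div_of_pos (by norm_num)]; simp]
    refine ENNReal.ofReal_le_ofReal ?_
    by_contra! h
    rw [max_lt_iff] at h
    obtain ⟨a, ha⟩ : ∃ a, 1 ≤ |f a (F z)| := by
      by_contra! h'
      exact absurd ((pi_norm_lt_iff one_pos).2 h' : ‖(F z).1‖ < 1) (not_lt.2 hFz.ge)
    obtain ⟨σ, hσ, hσ'⟩ : ∃ σ : ℝ, |σ| = 1 ∧ 1 ≤ σ * f a (F z) := by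
      rcases le_abs.1 ha with h' | h'
      · exact ⟨1, by simp, by simpa using h'⟩
      · exact ⟨-1, by simp, by simpa using h'⟩
    set c : Fin 100 → ℝ := fun j => σ * f a (F (PiLp.single 1 j 1)) with hc
    have hFe : ∀ j, ‖F (PiLp.single 1 j 1)‖ ≤ 1 := fun j => by
      simpa [hs, hF] using F.le_opNorm (PiLp.single 1 j 1)
    have hc1 : ∀ j, |c j| ≤ 1 := fun j => by
      rw [hc, abs_mul, hσ, one_mul]; exact (hf1 _ _).trans (hFe j)
    have hzs : z = ∑ j, z j • (PiLp.single 1 j 1 : X) := by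
      ext k; simp [Pi.single_apply]
    have hsum : σ * f a (F z) = ∑ j, z j * c j := by
      conv_lhs => rw [hzs]
      simp only [map_sum, map_smul, smul_eq_mul, mul_sum, hc]
      exact sum_congr rfl fun j _ => by ring
    have hle : ∀ j ∈ (univ : Finset (Fin 100)), z j * c j ≤ |z j| := fun j _ =>
      (le_abs_self _).trans (by rw [abs_mul]; exact mul_le_of_le_one_right (abs_nonneg _) (hc1 j))
    have heq := (sum_eq_sum_iff_of_le hle).1 (le_antisymm (sum_le_sum hle)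
      (by rw [← hX, hz, ← hsum]; exact hσ'))
    set u : E := σ • a.1 with hu
    have hu1 : ‖u‖ = 1 := by rw [hu, norm_smul, h1 _ a.2, Real.norm_eq_abs, hσ, one_mul]
    have hP : ∀ j, 0 < z j → 1 / 4 ≤ u j := fun j hj => by
      obtain ⟨w, hw⟩ := (F (PiLp.single 1 j 1)).2
      have e := heq j (mem_univ _)
      rw [abs_of_pos hj] at e
      have e' : c j = 1 := by
        have := mul_left_cancel₀ hj.ne' (e.trans (mul_one _).symm); exact this
      refine coord (w := w) j hu1 ?_ ((hJ1 w).trans (by rw [hw]; exact hFe j)) ?_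
      · rw [hu, real_inner_smul_left, ← hJa, hw]; exact e'
      · refine (hJ1 _).trans ?_
        have := (T - F).le_opNorm (PiLp.single 1 j 1)
        rw [hs, mul_one] at this
        refine le_trans (le_of_eq ?_) (this.trans h.2.le)
        rw [map_sub, hw]; rfl
    have hterm : ∀ j ∈ (univ : Finset (Fin 100)),
        1 / 100 + |z j| - 8 / 25 * u j ^ 2 ≤ |(x - z) j| := fun j _ => by
      show _ ≤ |1 / 100 - z j|
      rcases lt_or_ge 0 (z j) with hj | hj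
      · have := hP j hj
        rw [abs_of_pos hj]
        nlinarith [neg_le_abs (1 / 100 - z j)]
      · rw [abs_of_nonpos hj]
        nlinarith [le_abs_self (1 / 100 - z j)]
    have := sum_le_sum hterm
    rw [← hX, sum_sub_distrib, sum_add_distrib, ← hX, hz, ← mul_sum,
      ← EuclideanSpace.real_norm_sq_eq, hu1] at this
    norm_num at this
    linarith [h.1]
  refine ⟨X, LinearMap.range J, inferInstance, inferInstance, inferInstance, inferInstance,
    inferInstance, inferInstance, FiniteDimensional.complete ℝ _, inferInstance, ρ, 199 / 200,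
    hρ0, hρ1, ⟨Λ, fun a => J.rangeRestrict a.1, f, hy, fun a => ?_, hfy, hρ, fun v => ?_⟩,
    by norm_num, by norm_num, main, lt_of_lt_of_le ?_ main⟩
  · refine le_antisymm ((f a).opNorm_le_bound zero_le_one fun v => by simpa using hf1 a v) ?_
    simpa [hfy, hy] using (f a).le_opNorm (J.rangeRestrict a.1)
  · refine le_antisymm ?_ (ciSup_le fun a => hf1 a v)
    refine (pi_norm_le_iff_of_nonneg (Real.iSup_nonneg fun _ => abs_nonneg _)).2 fun a => ?_
    exact le_ciSup (f := fun a => |f a v|) (Set.finite_range _).bddAbove a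
  · refine (ENNReal.ofReal_le_one.2 (min_le_right _ _)).trans_lt ?_
    rw [ENNReal.lt_div_iff_mul_lt (by simp) (by simp)]
    norm_num

end Pool.Agent.Results.MP_c24244_an.Counter
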